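import Pool.Agent.helper62.MS.SpecF
import Pool.Agent.helper62.RS.GLC
import Pool.Agent.helper92.RS.GMG
import Pool.Agent.helper83.RS.GLI
import Pool.Agent.helper9.RS.GRI
import Pool.Agent.helper58.RS.GFD
import Pool.Agent.helper97.RS.GBD
import Pool.Agent.helper88.RS.FL0
import Pool.Agent.helper62.QU.CA1

/-! Row RHP of the project MS (MP_07c750_an): the packet measure of one eigenfunction is a probability measure. -/

set_option autoImplicit false

open scoped MatrixGroups ContDiff Topology UpperHalfPlane ComplexConjugate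
open UpperHalfPlane MeasureTheory Filter Set

namespace Pool.Agent.MS

open Pool.Agent.RS
open Pool.Agent.EN (XG MG mkX mkM fl pr)

/-- a probability measure with a density, pushed forward (helper27, row WTP of EN) -/
theorem RHP_meas {Y X : Type} [MeasurableSpace Y] [MeasurableSpace X] (μ : Measure Y)
    (w : Y → ℝ) (m : Y → X) (hm : Measurable m) (hw : Measurable w) (hw0 : ∀ g, 0 ≤ w g)
    (hi : Integrable w μ) (J : ℝ) (hJ : J = ∫ g, w g ∂μ) (hJ0 : 0 < J) :
    IsProbabilityMeasure ((ENNReal.ofReal J)⁻¹ • (μ.withDensity (fun g => ENNReal.ofReal (w g))).map m) ∧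
    ∀ Ψ : X → ℝ, Measurable Ψ →
      J * ∫ x, Ψ x ∂((ENNReal.ofReal J)⁻¹ • (μ.withDensity (fun g => ENNReal.ofReal (w g))).map m) =
        ∫ g, Ψ (m g) * w g ∂μ := by
  have h0 : ENNReal.ofReal J ≠ 0 := by
    rw [Ne, ENNReal.ofReal_eq_zero, not_le]
    exact hJ0
  refine ⟨⟨?_⟩, fun Ψ hΨ => ?_⟩
  · rw [Measure.smul_apply, Measure.map_apply hm MeasurableSet.univ, Set.preimage_univ,
      withDensity_apply _ MeasurableSet.univ, Measure.restrict_univ,
      ← ofReal_integral_eq_lintegral_ofReal hi (Eventually.of_forall hw0), ← hJ, smul_eq_mul,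
      ENNReal.inv_mul_cancel h0 ENNReal.ofReal_ne_top]
  · rw [integral_smul_measure, integral_map hm.aemeasurable hΨ.aestronglyMeasurable,
      integral_withDensity_eq_integral_toReal_smul hw.ennreal_ofReal
        (Eventually.of_forall fun _ => ENNReal.ofReal_lt_top), ENNReal.toReal_inv,
      ENNReal.toReal_ofReal hJ0.le, smul_eq_mul, ← mul_assoc, mul_inv_cancel₀ hJ0.ne', one_mul]
    refine integral_congr_ae (Eventually.of_forall fun g => ?_)
    simp only [smul_eq_mul]
    rw [ENNReal.toReal_ofReal (hw0 g), mul_comm]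

theorem RHP_proof : RHP_stmt := by
  intro Γ F c r φ hΓ hF hc hφ hq
  have hmk : Continuous (mkX Γ) := continuous_quotient_mk'
  have hGLC := GLC
  have hGMG := GMG hGLC
  have hGLI := GLI hGLC hGMG
  have hGRI := GRI hGLC hGMG hGLI
  obtain ⟨hlc, hsc, -⟩ := hGLC
  have : LocallyCompactSpace SL(2, ℝ) := hlc
  have : SecondCountableTopology SL(2, ℝ) := hsc
  obtain ⟨⟨hdm, hdv, hfin, -⟩, -⟩ := GFD GLC hGMG hGLI hGRI Γ F hΓ hF
  have hfm : IsFiniteMeasure (mG.restrict (dG F)) := ⟨by rw [Measure.restrict_apply_univ]; exact hfin⟩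
  obtain ⟨heS, hecs⟩ := FL0.2.1 (1 / 4) r c hc
  have ca := QU.CA1 ℂ
  have hec : Continuous (pk r c) := (ca.1 _).1 (ca.2.1 _ 0 ∞ (by simp) heS)
  have hG1 : InvG Γ (Wf (pk r c) φ) := FL0.2.2 Γ (pk r c) φ hec hecs hφ
  have hwc : Continuous (fun g => ‖Wf (pk r c) φ g‖ ^ 2) := hG1.1.norm.pow 2
  have hwi : Integrable (fun g => ‖Wf (pk r c) φ g‖ ^ 2) (mG.restrict (dG F)) := by
    obtain ⟨m, hm⟩ := (GBD GLC Γ ℂ _ hΓ hG1).1
    refine Integrable.of_bound hwc.aestronglyMeasurable (m ^ 2) (Eventually.of_forall fun g => ?_)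
    rw [Real.norm_eq_abs, abs_of_nonneg (by positivity)]
    exact pow_le_pow_left₀ (norm_nonneg _) (hm g) 2
  have hM := RHP_meas (mG.restrict (dG F)) (fun g => ‖Wf (pk r c) φ g‖ ^ 2) (mkX Γ) hmk.measurable hwc.measurable
    (fun g => by positivity) hwi (qn F c r φ) rfl hq
  exact ⟨hM.1, fun Ψ hΨ _ => hM.2 Ψ hΨ⟩

end Pool.Agent.MS
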